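import Pool.Agent.H83.HE.Stm

set_option autoImplicit false

namespace Pool.Agent.H64.HE

open Pool.Agent.H83.HE Polynomial

theorem t_RED : S_RED := by
  intro q a12 a22 a13 a23 a33 m n hdet hirr
  set M := H 0 1 a12 a22 q a13 a23 a33 m n with hM
  set s : ℤ := a22 + a33 + q * n with hs
  set t : ℤ := a22 * a33 - a12 - q * m - q * a23 with ht
  have hd : M 0 0 * M 1 1 * M 2 2 - M 0 0 * M 1 2 * M 2 1 - M 0 1 * M 1 0 * M 2 2 +
      M 0 1 * M 1 2 * M 2 0 + M 0 2 * M 1 0 * M 2 1 - M 0 2 * M 1 1 * M 2 0 = 1 := by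
    rw [← Matrix.det_fin_three]; exact hdet
  have hcp : M.charpoly = X ^ 3 - C s * X ^ 2 + C t * X - 1 := by
    unfold Matrix.charpoly
    rw [Matrix.det_fin_three]
    have hC : C (M 0 0 * M 1 1 * M 2 2 - M 0 0 * M 1 2 * M 2 1 - M 0 1 * M 1 0 * M 2 2 +
      M 0 1 * M 1 2 * M 2 0 + M 0 2 * M 1 0 * M 2 1 - M 0 2 * M 1 1 * M 2 0) = (1 : ℤ[X]) := by
      rw [hd]; exact C_1
    have e00 : M 0 0 = 0 := rfl
    have e10 : M 1 0 = 1 := rfl
    have e20 : M 2 0 = 0 := rfl
    have e01 : M 0 1 = a12 := rfl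
    have e11 : M 1 1 = a22 := rfl
    have e21 : M 2 1 = q := rfl
    have e02 : M 0 2 = 0 * m + a12 * n + a13 := rfl
    have e12 : M 1 2 = 1 * m + a22 * n + a23 := rfl
    have e22 : M 2 2 = q * n + a33 := rfl
    rw [← hC]
    simp only [Matrix.charmatrix_apply, Matrix.diagonal_apply_eq, Matrix.diagonal_apply_ne,
      ne_eq, Fin.isValue, zero_ne_one, one_ne_zero, not_false_eq_true,
      (by decide : ¬ (0 : Fin 3) = 2), (by decide : ¬ (2 : Fin 3) = 0),
      (by decide : ¬ (1 : Fin 3) = 2), (by decide : ¬ (2 : Fin 3) = 1),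
      e00, e10, e20, e01, e11, e21, e02, e12, e22, hs, ht]
    simp only [map_add, map_sub, map_mul, map_zero, map_one]
    ring
  have hmon : (X ^ 3 - C s * X ^ 2 + C t * X - 1 : ℤ[X]).Monic := by
    rw [← hcp]; exact M.charpoly_monic
  have hmonQ : (M.charpoly.map (Int.castRingHom ℚ)).Monic := M.charpoly_monic.map _
  have hdeg : (M.charpoly.map (Int.castRingHom ℚ)).natDegree = 3 := by
    rw [M.charpoly_monic.natDegree_map, Matrix.charpoly_natDegree_eq_dim]
    rfl
  have hroots : (M.charpoly.map (Int.castRingHom ℚ)).roots ≠ 0 := by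
    intro h0
    apply hirr
    unfold Irr
    exact (hmonQ.irreducible_iff_roots_eq_zero_of_degree_le_three (by omega) (by omega)).2 h0
  obtain ⟨r, hr⟩ := Multiset.exists_mem_of_ne_zero hroots
  have hr' : aeval r M.charpoly = 0 := by
    have := (mem_roots hmonQ.ne_zero).1 hr
    rw [IsRoot.def, eval_map] at this
    rw [aeval_def]
    exact this
  obtain ⟨k, hk⟩ := isInteger_of_is_root_of_monic M.charpoly_monic hr'
  have hk0 : M.charpoly.eval k = 0 := by
    have h1 : aeval ((algebraMap ℤ ℚ) k) M.charpoly = 0 := by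
      rw [hk]; exact hr'
    rw [aeval_algebraMap_apply] at h1
    have h2 : (algebraMap ℤ ℚ) (aeval k M.charpoly) = (algebraMap ℤ ℚ) 0 := by rw [h1, map_zero]
    have h3 := (algebraMap ℤ ℚ).injective_int h2
    rw [← h3]
    simp [aeval_def, eval₂_eq_eval_map]
  rw [hcp] at hk0
  simp only [eval_sub, eval_add, eval_mul, eval_pow, eval_X, eval_C, eval_one] at hk0
  have hk1 : k * (k ^ 2 - s * k + t) = 1 := by linarith
  have hu : IsUnit k := IsUnit.of_mul_eq_one _ hk1
  rcases Int.isUnit_iff.1 hu with h | h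
  · left
    rw [h] at hk1
    linarith
  · right
    rw [h] at hk1
    linarith

end Pool.Agent.H64.HE
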